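import Mathlib

set_option autoImplicit false

namespace Pool.Agent.K4H50.IV

open Finset

/-- primes between `y` and `4y` -/
def P (y : ℕ) : Finset ℕ := (Ioc y (4 * y)).filter Nat.Prime

theorem mem_P {y a : ℕ} : a ∈ P y ↔ (y < a ∧ a ≤ 4 * y) ∧ a.Prime := by
  simp [P, and_assoc]

/-- sum of reciprocals -/
noncomputable def S (y : ℕ) : ℝ := ∑ a ∈ P y, (1 : ℝ) / a

theorem theta_diff (y : ℕ) : ∑ a ∈ P y, Real.log a = Chebyshev.theta ((4 * y : ℕ) : ℝ) - Chebyshev.theta (y : ℝ) := by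
  have h1 : ∀ n : ℕ, Chebyshev.theta (n : ℝ) = ∑ a ∈ (Ioc 0 n).filter Nat.Prime, Real.log a := by
    intro n
    rw [Chebyshev.theta, Nat.floor_natCast]
  rw [h1, h1, P]
  have h2 : Ioc 0 (4 * y) = Ioc 0 y ∪ Ioc y (4 * y) :=
    (Ioc_union_Ioc_eq_Ioc (Nat.zero_le _) (by omega)).symm
  have h3 : Disjoint ((Ioc 0 y).filter Nat.Prime) ((Ioc y (4 * y)).filter Nat.Prime) := by
    rw [Finset.disjoint_left]
    intro a ha hb
    simp only [mem_filter, mem_Ioc] at ha hb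
    omega
  rw [h2, filter_union, sum_union h3]
  ring

theorem theta_low : ∃ y₀ : ℕ, 1 ≤ y₀ ∧ ∀ y : ℕ, y₀ ≤ y → (y : ℝ) ≤ ∑ a ∈ P y, Real.log a := by
  have h1 : ∀ᶠ x : ℝ in Filter.atTop, Real.log (4 * x + 1) + 2 * √(4 * x) * Real.log (4 * x) ≤
      (3 / 10 : ℝ) * x := by
    have h2 : (fun x : ℝ => Real.log (4 * x + 1) + 2 * √(4 * x) * Real.log (4 * x)) =o[Filter.atTop]
        (fun x : ℝ => x) := by
      have t1 : Filter.Tendsto (fun x : ℝ => 4 * x + 1) Filter.atTop Filter.atTop :=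
        Filter.tendsto_atTop_add_const_right _ _
          (Filter.tendsto_id.const_mul_atTop (by norm_num : (0 : ℝ) < 4))
      have t2 : Filter.Tendsto (fun x : ℝ => 4 * x) Filter.atTop Filter.atTop :=
        Filter.tendsto_id.const_mul_atTop (by norm_num : (0 : ℝ) < 4)
      have a1 : (fun x : ℝ => Real.log (4 * x + 1)) =o[Filter.atTop] (fun x : ℝ => x) := by
        refine (Real.isLittleO_log_id_atTop.comp_tendsto t1).trans_isBigO ?_
        refine Asymptotics.IsBigO.of_bound 5 ?_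
        filter_upwards [Filter.eventually_ge_atTop (1 : ℝ)] with x hx
        simp only [Function.comp, id]
        rw [Real.norm_of_nonneg (by linarith), Real.norm_of_nonneg (by linarith)]
        linarith
      have a2 : (fun u : ℝ => √u * Real.log u) =o[Filter.atTop] (fun u : ℝ => u) := by
        have b1 := (Asymptotics.isBigO_refl (fun u : ℝ => √u) Filter.atTop).mul_isLittleO
          (isLittleO_log_rpow_atTop (show (0 : ℝ) < 1 / 2 by norm_num))
        refine b1.congr' Filter.EventuallyEq.rfl ?_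
        filter_upwards [Filter.eventually_ge_atTop (0 : ℝ)] with u hu
        rw [← Real.sqrt_eq_rpow, Real.mul_self_sqrt hu]
      have a3 : (fun x : ℝ => √(4 * x) * Real.log (4 * x)) =o[Filter.atTop] (fun x : ℝ => x) := by
        refine (a2.comp_tendsto t2).trans_isBigO ?_
        refine Asymptotics.IsBigO.of_bound 4 ?_
        filter_upwards [Filter.eventually_ge_atTop (1 : ℝ)] with x hx
        simp only [Function.comp]
        rw [Real.norm_of_nonneg (by linarith), Real.norm_of_nonneg (by linarith)]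
      have a4 := a1.add (a3.const_mul_left 2)
      refine a4.congr_left fun x => ?_
      ring
    filter_upwards [h2.bound (show (0 : ℝ) < 3 / 10 by norm_num), Filter.eventually_ge_atTop (1 : ℝ)]
      with x hx hx1
    have h3 := (Real.le_norm_self _).trans hx
    rwa [Real.norm_of_nonneg (by linarith)] at h3
  obtain ⟨y₁, hy₁⟩ := Filter.eventually_atTop.1 (tendsto_natCast_atTop_atTop.eventually h1)
  refine ⟨max 1 y₁, le_max_left _ _, fun y hy => ?_⟩
  have h4 := hy₁ y ((le_max_right _ _).trans hy)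
  have h5 := Chebyshev.theta_ge (4 * y)
  have h6 := Chebyshev.theta_le_log4_mul_x (x := (y : ℝ)) (Nat.cast_nonneg y)
  rw [theta_diff]
  have h7 : Real.log 4 = 2 * Real.log 2 := by
    rw [show (4 : ℝ) = 2 ^ 2 by norm_num, Real.log_pow]; norm_num
  have h8 := Real.log_two_gt_d9
  rw [h7] at h6
  push_cast at h5 ⊢
  have h9 : (0 : ℝ) ≤ y := Nat.cast_nonneg y
  nlinarith

theorem S_low : ∃ y₀ : ℕ, 1 ≤ y₀ ∧ ∀ y : ℕ, y₀ ≤ y → 1 ≤ 4 * Real.log (4 * y) * S y := by
  obtain ⟨y₀, h0, h⟩ := theta_low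
  refine ⟨y₀, h0, fun y hy => ?_⟩
  have h1 := h y hy
  have hy1 : (1 : ℝ) ≤ y := by exact_mod_cast h0.trans hy
  have hy0 : (0 : ℝ) < y := by linarith
  have h2 : ∑ a ∈ P y, Real.log a ≤ (4 * y * Real.log (4 * y)) * S y := by
    rw [S, mul_sum]
    refine sum_le_sum fun a ha => ?_
    obtain ⟨⟨ha1, ha2⟩, ha3⟩ := mem_P.1 ha
    have e1 : (0 : ℝ) < a := by exact_mod_cast ha3.pos
    have e2 : (a : ℝ) ≤ 4 * y := by exact_mod_cast ha2
    have e3 : Real.log a ≤ Real.log (4 * y) := Real.log_le_log e1 e2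
    have e4 : 0 ≤ Real.log (a : ℝ) := Real.log_nonneg (by exact_mod_cast ha3.one_le)
    rw [mul_one_div, le_div_iff₀ e1]
    nlinarith
  have h3 := h1.trans h2
  nlinarith

theorem card_P (y : ℕ) : ((P y).card : ℝ) ≤ 4 * y * S y := by
  rw [S, mul_sum, card_eq_sum_ones]
  push_cast
  refine sum_le_sum fun a ha => ?_
  obtain ⟨⟨ha1, ha2⟩, ha3⟩ := mem_P.1 ha
  have e1 : (0 : ℝ) < a := by exact_mod_cast ha3.pos
  have e2 : (a : ℝ) ≤ 4 * y := by exact_mod_cast ha2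
  rw [mul_one_div, le_div_iff₀ e1]
  linarith

theorem card_mod (X d x : ℕ) (hd : 0 < d) :
    |((((Icc 1 X).filter (fun n => n ≡ x [MOD d])).card : ℕ) : ℝ) - (X : ℝ) / d| ≤ 1 := by
  have h := Nat.Ioc_filter_modEq_card 0 X hd x
  have e : Ioc 0 X = Icc 1 X := by ext n; rw [mem_Ioc, mem_Icc]; omega
  rw [e] at h
  obtain ⟨N, hN⟩ : ∃ N, N = ((Icc 1 X).filter (fun n => n ≡ x [MOD d])).card := ⟨_, rfl⟩
  rw [← hN] at h ⊢
  have hd0 : (0 : ℚ) < d := by exact_mod_cast hd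
  have f1 := Int.floor_le (((X : ℚ) - x) / d)
  have f2 := Int.lt_floor_add_one (((X : ℚ) - x) / d)
  have f3 := Int.floor_le ((((0 : ℕ) : ℚ) - x) / d)
  have f4 := Int.lt_floor_add_one ((((0 : ℕ) : ℚ) - x) / d)
  have hX0 : (0 : ℚ) ≤ (X : ℚ) / d := by positivity
  have e1 : ((X : ℚ) - x) / d - (((0 : ℕ) : ℚ) - x) / d = (X : ℚ) / d := by
    push_cast; ring
  have hNq : ((N : ℤ) : ℚ) = ((max (⌊((X : ℚ) - x) / d⌋ - ⌊(((0 : ℕ) : ℚ) - x) / d⌋) 0 : ℤ) : ℚ) := by
    exact_mod_cast h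
  push_cast at hNq
  have hQ : |(N : ℚ) - (X : ℚ) / d| ≤ 1 := by
    rw [hNq, abs_le]
    push_cast at f1 f2 f3 f4 e1 ⊢
    rcases le_total (0 : ℚ) ((⌊((X : ℚ) - x) / d⌋ : ℚ) - (⌊((0 : ℚ) - x) / d⌋ : ℚ)) with hm | hm
    · rw [max_eq_left hm]
      constructor <;> linarith
    · rw [max_eq_right hm]
      constructor <;> linarith
  have : ((|(N : ℚ) - (X : ℚ) / d| : ℚ) : ℝ) ≤ ((1 : ℚ) : ℝ) := by exact_mod_cast hQ
  push_cast at this
  exact this

/-- the number of `q ≤ X` with `a ∣ k q + 1`, for `a` prime to `k` -/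
theorem card_one (X a k : ℕ) (ha : 0 < a) (hk : k.Coprime a) :
    |((((Icc 1 X).filter (fun q => a ∣ k * q + 1)).card : ℕ) : ℝ) - (X : ℝ) / a| ≤ 1 := by
  obtain ⟨x, hx⟩ : ∃ x : ℕ, ∀ q : ℕ, a ∣ k * q + 1 ↔ q ≡ x [MOD a] := by
    haveI : NeZero a := ⟨ha.ne'⟩
    let u := ZMod.unitOfCoprime k hk
    refine ⟨(-(u⁻¹ : (ZMod a)ˣ) : ZMod a).val, fun q => ?_⟩
    rw [← ZMod.natCast_eq_natCast_iff, ZMod.natCast_zmod_val, ← ZMod.natCast_eq_zero_iff]
    push_cast
    have hu : (k : ZMod a) = (u : ZMod a) := (ZMod.coe_unitOfCoprime k hk).symm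
    rw [hu]
    constructor
    · intro h
      have h1 : (u : ZMod a) * q = -1 := by linear_combination h
      have h2 : (q : ZMod a) = (u⁻¹ : (ZMod a)ˣ) * ((u : ZMod a) * q) := by
        rw [← mul_assoc, Units.inv_mul, one_mul]
      rw [h2, h1]; ring
    · intro h
      rw [h]
      have h2 : (u : ZMod a) * ((u⁻¹ : (ZMod a)ˣ) : ZMod a) = 1 := Units.mul_inv u
      linear_combination -h2
  have h := card_mod X a x ha
  rwa [show ((Icc 1 X).filter (fun q => a ∣ k * q + 1)) = (Icc 1 X).filter (fun n => n ≡ x [MOD a]) from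
    filter_congr fun q _ => hx q]

/-- two conditions -/
theorem card_two (X a b k l : ℕ) (ha : a.Prime) (hb : b.Prime) (hab : a ≠ b) (hk : k.Coprime a)
    (hl : l.Coprime b) :
    ((((Icc 1 X).filter (fun q => a ∣ k * q + 1 ∧ b ∣ l * q + 1)).card : ℕ) : ℝ) ≤
      (X : ℝ) / (a * b) + 1 := by
  have hcop : a.Coprime b := (Nat.coprime_primes ha hb).2 hab
  obtain ⟨x, hx⟩ : ∃ x : ℕ, ∀ q : ℕ, (a ∣ k * q + 1 ∧ b ∣ l * q + 1) → q ≡ x [MOD a * b] := by
    by_cases hex : ∃ x : ℕ, a ∣ k * x + 1 ∧ b ∣ l * x + 1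
    · obtain ⟨x, hx1, hx2⟩ := hex
      refine ⟨x, fun q hq => ?_⟩
      rw [← Nat.modEq_and_modEq_iff_modEq_mul hcop]
      constructor
      · refine Nat.ModEq.cancel_left_of_coprime (c := k) (Nat.Coprime.symm hk) ?_
        have h1 : k * q + 1 ≡ k * x + 1 [MOD a] :=
          ((Nat.modEq_zero_iff_dvd).2 hq.1).trans ((Nat.modEq_zero_iff_dvd).2 hx1).symm
        exact h1.add_right_cancel' 1
      · refine Nat.ModEq.cancel_left_of_coprime (c := l) (Nat.Coprime.symm hl) ?_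
        have h1 : l * q + 1 ≡ l * x + 1 [MOD b] :=
          ((Nat.modEq_zero_iff_dvd).2 hq.2).trans ((Nat.modEq_zero_iff_dvd).2 hx2).symm
        exact h1.add_right_cancel' 1
    · exact ⟨0, fun q hq => absurd ⟨q, hq⟩ hex⟩
  have h := (abs_le.1 (card_mod X (a * b) x (Nat.mul_pos ha.pos hb.pos))).2
  have h2 : (((Icc 1 X).filter (fun q => a ∣ k * q + 1 ∧ b ∣ l * q + 1)).card : ℝ) ≤
      (((Icc 1 X).filter (fun n => n ≡ x [MOD a * b])).card : ℝ) := by
    exact_mod_cast card_le_card fun q hq => by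
      rw [mem_filter] at hq ⊢
      exact ⟨hq.1, hx q hq.2⟩
  push_cast at h
  linarith

end Pool.Agent.K4H50.IV
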