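import Pool.Agent.K4H50.IV.A1

set_option autoImplicit false

namespace Pool.Agent.K4H50.IV

open Finset

/-- the pairs -/
def W (K y : ℕ) : Finset (ℕ × ℕ) := Icc 1 K ×ˢ P y

/-- indicator -/
noncomputable def f (q : ℕ) (w : ℕ × ℕ) : ℝ := if w.2 ∣ w.1 * q + 1 then 1 else 0

theorem f_nonneg (q : ℕ) (w : ℕ × ℕ) : 0 ≤ f q w := by
  unfold f; split_ifs <;> norm_num

theorem mem_W {K y : ℕ} {w : ℕ × ℕ} : w ∈ W K y ↔ (1 ≤ w.1 ∧ w.1 ≤ K) ∧ w.2 ∈ P y := by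
  rw [W, mem_product, mem_Icc]

theorem cop {K y : ℕ} (hK : K ≤ y) {w : ℕ × ℕ} (hw : w ∈ W K y) : w.1.Coprime w.2 := by
  obtain ⟨⟨h1, h2⟩, h3⟩ := mem_W.1 hw
  obtain ⟨⟨h4, h5⟩, h6⟩ := mem_P.1 h3
  refine ((Nat.Prime.coprime_iff_not_dvd h6).2 fun h => ?_).symm
  have := Nat.le_of_dvd (by omega) h
  omega

theorem sum_W_inv (K y : ℕ) : ∑ w ∈ W K y, (1 : ℝ) / w.2 = K * S y := by
  rw [W, sum_product, S]
  simp

theorem card_W (K y : ℕ) : ((W K y).card : ℝ) = K * (P y).card := by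
  rw [W, card_product]
  simp

theorem sum_f (X : ℕ) (w : ℕ × ℕ) : ∑ q ∈ Icc 1 X, f q w =
    (((Icc 1 X).filter (fun q => w.2 ∣ w.1 * q + 1)).card : ℝ) := by
  unfold f
  rw [← sum_filter, sum_const, nsmul_eq_mul, mul_one]

theorem sum_ff (X : ℕ) (w v : ℕ × ℕ) : ∑ q ∈ Icc 1 X, f q w * f q v =
    (((Icc 1 X).filter (fun q => w.2 ∣ w.1 * q + 1 ∧ v.2 ∣ v.1 * q + 1)).card : ℝ) := by
  rw [← filter_filter, card_eq_sum_ones, sum_filter, sum_filter]
  push_cast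
  refine sum_congr rfl fun q _ => ?_
  unfold f
  split_ifs <;> norm_num

theorem pair {X K y : ℕ} (hK : K ≤ y) {w v : ℕ × ℕ} (hw : w ∈ W K y) (hv : v ∈ W K y) :
    ∑ q ∈ Icc 1 X, f q w * f q v ≤
      (X * ((1 : ℝ) / w.2) * ((1 : ℝ) / v.2) + 1) + if w = v then X * ((1 : ℝ) / w.2) + 1 else 0 := by
  have hpos : (0 : ℝ) ≤ X * ((1 : ℝ) / w.2) * ((1 : ℝ) / v.2) + 1 := by positivity
  have hpos2 : (0 : ℝ) ≤ X * ((1 : ℝ) / w.2) + 1 := by positivity
  obtain ⟨hw1, hw2⟩ := mem_W.1 hw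
  obtain ⟨hv1, hv2⟩ := mem_W.1 hv
  obtain ⟨hwy, hwp⟩ := mem_P.1 hw2
  obtain ⟨hvy, hvp⟩ := mem_P.1 hv2
  rw [sum_ff]
  by_cases hab : w.2 = v.2
  · by_cases hkl : w.1 = v.1
    · have hwv : w = v := Prod.ext hkl hab
      rw [if_pos hwv]
      have h1 := (abs_le.1 (card_one X w.2 w.1 hwp.pos (cop hK hw))).2
      have h2 : (((Icc 1 X).filter (fun q => w.2 ∣ w.1 * q + 1 ∧ v.2 ∣ v.1 * q + 1)).card : ℝ) ≤
          (((Icc 1 X).filter (fun q => w.2 ∣ w.1 * q + 1)).card : ℝ) := by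
        exact_mod_cast card_le_card fun q hq => by
          rw [mem_filter] at hq ⊢
          exact ⟨hq.1, hq.2.1⟩
      have h3 : (X : ℝ) * (1 / (w.2 : ℝ)) = X / w.2 := by ring
      rw [h3] at hpos hpos2 ⊢
      linarith
    · have h0 : (Icc 1 X).filter (fun q => w.2 ∣ w.1 * q + 1 ∧ v.2 ∣ v.1 * q + 1) = ∅ := by
        refine filter_eq_empty_iff.2 fun q _ hq => hkl ?_
        obtain ⟨h1, h2⟩ := hq
        rw [← hab] at h2
        have h3 : w.1 * q + 1 ≡ v.1 * q + 1 [MOD w.2] :=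
          ((Nat.modEq_zero_iff_dvd).2 h1).trans ((Nat.modEq_zero_iff_dvd).2 h2).symm
        have h4 := h3.add_right_cancel' 1
        have h5 : Nat.gcd w.2 q = 1 := by
          refine (Nat.Prime.coprime_iff_not_dvd hwp).2 fun h => ?_
          have h6 : w.2 ∣ 1 := (Nat.dvd_add_right (h.mul_left _)).1 h1
          exact hwp.one_lt.ne' (Nat.dvd_one.1 h6)
        have h7 := Nat.ModEq.cancel_right_of_coprime h5 h4
        exact Nat.ModEq.eq_of_lt_of_lt h7 (by omega) (by omega)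
      rw [h0, card_empty, Nat.cast_zero]
      split_ifs <;> linarith
  · have h1 := card_two X w.2 v.2 w.1 v.1 hwp hvp hab (cop hK hw) (cop hK hv)
    have hwv : w ≠ v := fun h => hab (by rw [h])
    rw [if_neg hwv, add_zero]
    refine h1.trans (le_of_eq ?_)
    have e1 : (w.2 : ℝ) ≠ 0 := by exact_mod_cast hwp.ne_zero
    have e2 : (v.2 : ℝ) ≠ 0 := by exact_mod_cast hvp.ne_zero
    field_simp

/-- the exceptions -/
def Bad (X K y : ℕ) : Finset ℕ := (Icc 1 X).filter fun q => ∀ w ∈ W K y, ¬ w.2 ∣ w.1 * q + 1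

theorem var {X K y : ℕ} (hK : K ≤ y) :
    ((Bad X K y).card : ℝ) * (K * S y) ^ 2 ≤
      (K * (P y).card) ^ 2 + X * (K * S y) + K * (P y).card + 2 * (K * S y) * (K * (P y).card) := by
  set μ : ℝ := K * S y with hμ
  set n : ℝ := K * (P y).card with hn
  have hμ0 : 0 ≤ μ := by
    rw [hμ, S]
    exact mul_nonneg (Nat.cast_nonneg _) (sum_nonneg fun a _ => by positivity)
  have h1 : ((Bad X K y).card : ℝ) * μ ^ 2 ≤ ∑ q ∈ Icc 1 X, (∑ w ∈ W K y, f q w - μ) ^ 2 := by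
    rw [card_eq_sum_ones, Nat.cast_sum, sum_mul]
    refine (sum_le_sum fun q hq => ?_).trans (sum_le_sum_of_subset_of_nonneg (filter_subset _ _)
      fun q _ _ => sq_nonneg _)
    obtain ⟨-, hq2⟩ := mem_filter.1 hq
    have h0 : ∑ w ∈ W K y, f q w = 0 := sum_eq_zero fun w hw => by
      unfold f
      rw [if_neg (hq2 w hw)]
    rw [h0]
    simp
  have h2 : ∑ q ∈ Icc 1 X, (∑ w ∈ W K y, f q w - μ) ^ 2 =
      ∑ w ∈ W K y, ∑ v ∈ W K y, ∑ q ∈ Icc 1 X, f q w * f q v -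
        2 * μ * (∑ w ∈ W K y, ∑ q ∈ Icc 1 X, f q w) + X * μ ^ 2 := by
    have e1 : ∀ q, (∑ w ∈ W K y, f q w - μ) ^ 2 = ∑ w ∈ W K y, ∑ v ∈ W K y, f q w * f q v -
        2 * μ * (∑ w ∈ W K y, f q w) + μ ^ 2 := by
      intro q
      rw [← sum_mul_sum]
      ring
    rw [sum_congr rfl fun q _ => e1 q, sum_add_distrib, sum_sub_distrib, ← mul_sum, sum_const,
      Nat.card_Icc, nsmul_eq_mul, Nat.add_sub_cancel]
    congr 2
    · rw [sum_comm]
      refine sum_congr rfl fun w _ => ?_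
      rw [sum_comm]
    · rw [sum_comm]
  have h3 : ∑ w ∈ W K y, ∑ v ∈ W K y, ∑ q ∈ Icc 1 X, f q w * f q v ≤
      X * μ ^ 2 + n ^ 2 + (X * μ + n) := by
    calc _ ≤ ∑ w ∈ W K y, ∑ v ∈ W K y, ((X * ((1 : ℝ) / w.2) * ((1 : ℝ) / v.2) + 1) +
          if w = v then X * ((1 : ℝ) / w.2) + 1 else 0) :=
          sum_le_sum fun w hw => sum_le_sum fun v hv => pair hK hw hv
      _ = X * μ ^ 2 + n ^ 2 + (X * μ + n) := by
          have e2 : ∀ w ∈ W K y, ∑ v ∈ W K y, ((X * ((1 : ℝ) / w.2) * ((1 : ℝ) / v.2) + 1) +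
              if w = v then X * ((1 : ℝ) / w.2) + 1 else 0) =
              X * ((1 : ℝ) / w.2) * μ + n + (X * ((1 : ℝ) / w.2) + 1) := by
            intro w hw
            rw [sum_add_distrib, sum_add_distrib, ← mul_sum, sum_W_inv, sum_ite_eq, if_pos hw,
              sum_const, nsmul_eq_mul, mul_one, card_W]
          rw [sum_congr rfl e2, sum_add_distrib, sum_add_distrib, sum_add_distrib, ← sum_mul,
            ← mul_sum, sum_W_inv, sum_const, sum_const, nsmul_eq_mul, nsmul_eq_mul, card_W]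
          ring
  have h4 : X * μ - n ≤ ∑ w ∈ W K y, ∑ q ∈ Icc 1 X, f q w := by
    calc X * μ - n = ∑ w ∈ W K y, (X * ((1 : ℝ) / w.2) - 1) := by
          rw [sum_sub_distrib, ← mul_sum, sum_W_inv, sum_const, nsmul_eq_mul, card_W, mul_one]
      _ ≤ _ := sum_le_sum fun w hw => by
          obtain ⟨hw1, hw2⟩ := mem_W.1 hw
          obtain ⟨hwy, hwp⟩ := mem_P.1 hw2
          have h5 := (abs_le.1 (card_one X w.2 w.1 hwp.pos (cop hK hw))).1
          rw [sum_f]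
          have h3 : (X : ℝ) * (1 / (w.2 : ℝ)) = X / w.2 := by ring
          rw [h3]
          linarith
  rw [h2] at h1
  nlinarith [mul_le_mul_of_nonneg_left h4 (mul_nonneg zero_le_two hμ0)]

/-- the bound for the number of exceptions -/
theorem bad : ∃ y₀ : ℕ, 1 ≤ y₀ ∧ ∀ X K y : ℕ, y₀ ≤ y → 1 ≤ K → K ≤ y →
    ((Bad X K y).card : ℝ) ≤ 24 * (y : ℝ) ^ 2 + 4 * (X + 4 * y) * Real.log (4 * y) / K := by
  obtain ⟨y₀, h0, h⟩ := S_low
  refine ⟨y₀, h0, fun X K y hy hK1 hKy => ?_⟩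
  have h1 := h y hy
  have h2 := var (X := X) hKy
  have h3 := card_P y
  have hy1 : (1 : ℝ) ≤ y := by exact_mod_cast h0.trans hy
  have hK : (1 : ℝ) ≤ K := by exact_mod_cast hK1
  have hlog : 0 < Real.log (4 * y) := Real.log_pos (by linarith)
  have hS : 0 < S y := by
    by_contra hcon
    push Not at hcon
    nlinarith
  set σ := S y
  set π : ℝ := ((P y).card : ℝ)
  have hπ0 : 0 ≤ π := Nat.cast_nonneg _
  have hX0 : (0 : ℝ) ≤ X := Nat.cast_nonneg _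
  have hKσ : 0 < K * σ := by positivity
  -- divide by `(K σ) ^ 2`
  have h4 : ((Bad X K y).card : ℝ) * (K * σ) ^ 2 ≤
      (24 * (y : ℝ) ^ 2 + (X + 4 * y) / (K * σ)) * (K * σ) ^ 2 := by
    refine h2.trans ?_
    have e1 : (24 * (y : ℝ) ^ 2 + (X + 4 * y) / (K * σ)) * (K * σ) ^ 2 =
        24 * (y : ℝ) ^ 2 * (K * σ) ^ 2 + (X + 4 * y) * (K * σ) := by
      field_simp
    rw [e1]
    have e2 : K * π ≤ 4 * y * (K * σ) := by nlinarith
    have e3 : (K * π) ^ 2 ≤ 16 * (y : ℝ) ^ 2 * (K * σ) ^ 2 := by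
      calc (K * π) ^ 2 ≤ (4 * y * (K * σ)) ^ 2 := pow_le_pow_left₀ (by positivity) e2 2
        _ = _ := by ring
    have e4 : 2 * (K * σ) * (K * π) ≤ 8 * (y : ℝ) ^ 2 * (K * σ) ^ 2 := by
      calc 2 * (K * σ) * (K * π) ≤ 2 * (K * σ) * (4 * y * (K * σ)) :=
            mul_le_mul_of_nonneg_left e2 (by positivity)
        _ = 8 * y * (K * σ) ^ 2 := by ring
        _ ≤ 8 * (y : ℝ) ^ 2 * (K * σ) ^ 2 := by
            refine mul_le_mul_of_nonneg_right ?_ (by positivity)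
            nlinarith
    nlinarith
  have h5 := le_of_mul_le_mul_right h4 (by positivity)
  refine h5.trans ?_
  have h6 : (X + 4 * y) / (K * σ) ≤ 4 * (X + 4 * y) * Real.log (4 * y) / K := by
    rw [div_le_div_iff₀ hKσ (by linarith)]
    have h7 : (0 : ℝ) ≤ (X + 4 * y) * K := by positivity
    nlinarith [mul_le_mul_of_nonneg_left h1 h7]
  linarith

end Pool.Agent.K4H50.IV
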