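import Pool.Agent.K4H50.IV.A2

set_option autoImplicit false

namespace Pool.Agent.K4H50.IV

open Finset

/-- There are integers `x, z` with `2 ≤ x, z ≤ T` and `x z ≡ 1` modulo `q`; for an odd prime `q` this
says that `M_q ≤ T`. -/
def SmallInverse (q : ℕ) (T : ℝ) : Prop :=
  ∃ x z : ℕ, 2 ≤ x ∧ 2 ≤ z ∧ (x : ℝ) ≤ T ∧ (z : ℝ) ≤ T ∧ x * z ≡ 1 [MOD q]

open Classical in
/-- The set of the `q ≤ X`, `q ≥ 1`, for which there is no such pair of integers up to `T q`. -/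
noncomputable def exceptions (X : ℕ) (T : ℕ → ℝ) : Finset ℕ :=
  (Icc 1 X).filter fun q => ¬ SmallInverse q (T q)

theorem mem_exceptions {X : ℕ} {T : ℕ → ℝ} {q : ℕ} :
    q ∈ exceptions X T ↔ (1 ≤ q ∧ q ≤ X) ∧ ¬ SmallInverse q (T q) := by
  simp only [exceptions, mem_filter, mem_Icc]

theorem card_exceptions_le (X : ℕ) (T : ℕ → ℝ) : ((exceptions X T).card : ℝ) ≤ X := by
  have h : (exceptions X T).card ≤ (Icc 1 X).card :=
    card_le_card fun q hq => mem_Icc.2 (mem_exceptions.1 hq).1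
  rw [Nat.card_Icc, Nat.add_sub_cancel] at h
  exact_mod_cast h

theorem SmallInverse.mono {q : ℕ} {T T' : ℝ} (h : SmallInverse q T) (hT : T ≤ T') :
    SmallInverse q T' := by
  obtain ⟨x, z, h1, h2, h3, h4, h5⟩ := h
  exact ⟨x, z, h1, h2, h3.trans hT, h4.trans hT, h5⟩

theorem trivial_inverse {q : ℕ} {T : ℝ} (h0 : 1 ≤ q) (h1 : (q : ℝ) ≤ T) (h3 : (3 : ℝ) ≤ T) :
    SmallInverse q T := by
  rcases Nat.lt_or_ge q 3 with hq | hq
  · refine ⟨3, 3, by norm_num, by norm_num, by exact_mod_cast h3, by exact_mod_cast h3, ?_⟩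
    interval_cases q
    · exact Nat.modEq_one
    · decide
  · obtain ⟨m, rfl⟩ : ∃ m, q = m + 1 := ⟨q - 1, by omega⟩
    have h4 : (m : ℝ) ≤ T := by push_cast at h1; linarith
    refine ⟨m, m, by omega, by omega, h4, h4, ?_⟩
    have : m * m = (m + 1) * (m - 1) + 1 := by
      obtain ⟨k, rfl⟩ : ∃ k, m = k + 1 := ⟨m - 1, by omega⟩
      rw [Nat.add_sub_cancel]
      ring
    rw [this]
    have h5 : (m + 1) * (m - 1) ≡ 0 [MOD m + 1] := (Nat.modEq_zero_iff_dvd).2 (dvd_mul_right _ _)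
    simpa using h5.add_right 1

theorem incl {X K y : ℕ} {T : ℝ} (h1 : (4 * y : ℝ) ≤ T)
    (h2 : (K * X + 1 : ℝ) ≤ T * (y + 1)) :
    exceptions X (fun _ => T) ⊆ Icc 1 (8 * y) ∪ Bad X K y := by
  intro q hq
  obtain ⟨⟨hq3, hq4⟩, hq2⟩ := mem_exceptions.1 hq
  have hq1 : q ∈ Icc 1 X := mem_Icc.2 ⟨hq3, hq4⟩
  rw [mem_union, mem_Icc]
  by_contra hcon
  push Not at hcon
  obtain ⟨hc1, hc2⟩ := hcon
  have hc3 := hc1 hq3
  refine hq2 ?_
  rw [Bad, mem_filter] at hc2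
  push Not at hc2
  obtain ⟨w, hw, hdvd⟩ := hc2 hq1
  obtain ⟨⟨hk1, hk2⟩, hwP⟩ := mem_W.1 hw
  obtain ⟨⟨ha1, ha2⟩, hap⟩ := mem_P.1 hwP
  obtain ⟨b, hb⟩ := hdvd
  have hkq : q ≤ w.1 * q := Nat.le_mul_of_pos_left q hk1
  refine ⟨w.2, b, hap.two_le, ?_, ?_, ?_, ?_⟩
  · by_contra hb2
    have : w.2 * b ≤ w.2 * 1 := Nat.mul_le_mul_left _ (by omega)
    omega
  · have : (w.2 : ℝ) ≤ 4 * y := by exact_mod_cast ha2
    linarith
  · by_contra hcon
    push Not at hcon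
    have e1 : ((w.1 : ℝ)) * q + 1 = w.2 * b := by exact_mod_cast hb
    have e2 : (w.1 : ℝ) * q ≤ K * X := by exact_mod_cast Nat.mul_le_mul hk2 hq4
    have e3 : (y + 1 : ℝ) ≤ w.2 := by exact_mod_cast ha1
    have hT : 0 ≤ T := by
      have : (0 : ℝ) ≤ y := Nat.cast_nonneg y
      linarith
    have e4 : T * (y + 1) < b * w.2 := by
      calc T * (y + 1) ≤ T * w.2 := mul_le_mul_of_nonneg_left e3 hT
        _ < b * w.2 := mul_lt_mul_of_pos_right hcon (by linarith [(Nat.cast_nonneg y : (0:ℝ) ≤ y)])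
    nlinarith
  · rw [← hb]
    have h5 : w.1 * q ≡ 0 [MOD q] := (Nat.modEq_zero_iff_dvd).2 (dvd_mul_left _ _)
    simpa using h5.add_right 1

theorem log_ge {X : ℕ} (hX : 2981 ≤ X) : 8 ≤ Real.log X := by
  rw [Real.le_log_iff_exp_le (by exact_mod_cast (show 0 < X by omega))]
  have h1 : Real.exp 8 = Real.exp 1 ^ 8 := by rw [← Real.exp_nat_mul]; norm_num
  have h2 : Real.exp 1 ^ 8 ≤ (2.7182818286 : ℝ) ^ 8 :=
    pow_le_pow_left₀ (Real.exp_pos 1).le Real.exp_one_lt_d9.le 8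
  have h3 : ((2.7182818286 : ℝ)) ^ 8 ≤ 2981 := by norm_num
  have h4 : (2981 : ℝ) ≤ X := by exact_mod_cast hX
  rw [h1]; linarith

theorem log_ge_one {X : ℕ} (hX : 3 ≤ X) : 1 ≤ Real.log X := by
  rw [Real.le_log_iff_exp_le (by exact_mod_cast (show 0 < X by omega))]
  have h4 : (3 : ℝ) ≤ X := by exact_mod_cast hX
  linarith [Real.exp_one_lt_d9]

/-- (A) -/
theorem partA : ∃ C : ℝ, 0 < C ∧ ∀ X : ℕ, 3 ≤ X → ∀ s : ℝ, 1 ≤ s →
    ((exceptions X fun _ => s ^ 3 * √X * Real.log X).card : ℝ) ≤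
      C * X / s ^ 2 := by
  obtain ⟨y₀, hy₀, hbad⟩ := bad
  set X₀ : ℕ := 2981 + (2 * y₀ + 2) ^ 3 with hX₀
  refine ⟨100 + X₀, by positivity, fun X hX s hs => ?_⟩
  have hX3 : (3 : ℝ) ≤ X := by exact_mod_cast hX
  set r : ℝ := √X with hr
  set L : ℝ := Real.log X with hL
  have hrr : r * r = X := Real.mul_self_sqrt (by linarith)
  have hr0 : 0 < r := Real.sqrt_pos.2 (by linarith)
  have hL1 : 1 ≤ L := log_ge_one hX
  have hs0 : 0 < s := by linarith
  have hs3 : 1 ≤ s ^ 3 := one_le_pow₀ hs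
  rw [le_div_iff₀ (by positivity)]
  rcases le_or_gt (X : ℝ) (s ^ 3 * r * L) with hT | hT
  · have h0 : exceptions X (fun _ => s ^ 3 * r * L) = ∅ := by
      refine eq_empty_of_forall_notMem fun q hq => ?_
      obtain ⟨⟨e1, e2⟩, e3⟩ := mem_exceptions.1 hq
      have hq3 : (q : ℝ) ≤ X := by exact_mod_cast e2
      exact e3 (trivial_inverse e1 (hq3.trans hT) (hX3.trans hT))
    rw [h0, card_empty, Nat.cast_zero, zero_mul]
    positivity
  have h1 : s ^ 3 * L < r := by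
    by_contra hcon
    push Not at hcon
    nlinarith
  rcases Nat.lt_or_ge X X₀ with hXX | hXX
  · have h2 := card_exceptions_le X (fun _ => s ^ 3 * r * L)
    have h3 : s ≤ r := by
      have e1 : s ≤ s ^ 3 := by nlinarith [sq_nonneg s, sq_nonneg (s - 1)]
      nlinarith
    have h4 : s ^ 2 ≤ X := by nlinarith
    have h5 : (X : ℝ) ≤ X₀ := by exact_mod_cast hXX.le
    calc _ ≤ (X : ℝ) * s ^ 2 := mul_le_mul_of_nonneg_right h2 (by positivity)
      _ ≤ X * X₀ := mul_le_mul_of_nonneg_left (h4.trans h5) (by linarith)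
      _ ≤ (100 + X₀) * X := by nlinarith
  have hL8 : 8 ≤ L := log_ge (by omega)
  set u : ℝ := r / s with hu
  have hu0 : 0 < u := by positivity
  have hus : u * s = r := by rw [hu]; field_simp
  have hur : u ≤ r := by rw [hu]; exact div_le_self hr0.le hs
  have hu3 : ((2 * y₀ + 2 : ℕ) : ℝ) ^ 3 ≤ u ^ 3 := by
    have e1 : ((2 * y₀ + 2 : ℕ) : ℝ) ^ 3 ≤ X := by
      have : (2 * y₀ + 2) ^ 3 ≤ X := by omega
      exact_mod_cast this
    have e2 : u ^ 3 * s ^ 3 = r ^ 3 := by rw [← hus]; ring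
    have e3 : (X : ℝ) * s ^ 3 ≤ u ^ 3 * s ^ 3 := by
      rw [e2]
      have : s ^ 3 ≤ r := by nlinarith
      calc (X : ℝ) * s ^ 3 ≤ X * r := mul_le_mul_of_nonneg_left this (by linarith)
        _ = r ^ 3 := by rw [← hrr]; ring
    have e4 := le_of_mul_le_mul_right e3 (by positivity)
    linarith
  have hu2 : (2 * y₀ + 2 : ℝ) ≤ u := by
    have := le_of_pow_le_pow_left₀ (by norm_num) hu0.le hu3
    push_cast at this
    exact this
  have hy0R : (1 : ℝ) ≤ y₀ := by exact_mod_cast hy₀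
  set y : ℕ := ⌊u⌋₊ with hy
  have hy1 : (y : ℝ) ≤ u := Nat.floor_le hu0.le
  have hy2 : u < y + 1 := Nat.lt_floor_add_one u
  have hyy0 : y₀ ≤ y := Nat.le_floor (by linarith)
  set K : ℕ := ⌊s ^ 2 * L / 4⌋₊ with hK
  have hs2 : 1 ≤ s ^ 2 := one_le_pow₀ hs
  have hsL : 8 ≤ s ^ 2 * L := by nlinarith
  have hK1 : (K : ℝ) ≤ s ^ 2 * L / 4 := Nat.floor_le (by positivity)
  have hK2 : s ^ 2 * L / 4 < K + 1 := Nat.lt_floor_add_one _
  have hK3 : 1 ≤ K := Nat.le_floor (by push_cast; linarith)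
  have hK4 : s ^ 2 * L / 8 ≤ K := by linarith
  have hsu : s ^ 2 * L ≤ u := by
    rw [hu, le_div_iff₀ hs0]
    nlinarith
  have hKy : K ≤ y := by
    have : (K : ℝ) ≤ y := by linarith
    exact_mod_cast this
  have hb := hbad X K y hyy0 hK3 hKy
  have hy1R : (1 : ℝ) ≤ y := by exact_mod_cast hy₀.trans hyy0
  have hK0 : (0 : ℝ) < K := by linarith
  have hincl : exceptions X (fun _ => s ^ 3 * r * L) ⊆
      Icc 1 (8 * y) ∪ Bad X K y := by
    refine incl ?_ ?_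
    · have e1 : 4 * r ≤ s ^ 3 * r * L := by
        have : 4 ≤ s ^ 3 * L := by nlinarith
        nlinarith
      linarith
    · have e1 : (K * X + 1 : ℝ) ≤ 2 * (K * X) := by nlinarith
      have e2 : 2 * (K * (X : ℝ)) ≤ 2 * (s ^ 2 * L / 4 * X) := by
        have := mul_le_mul_of_nonneg_right hK1 (show (0 : ℝ) ≤ X by linarith)
        linarith
      have e3 : s ^ 3 * r * L * u = s ^ 2 * L * X := by
        rw [← hrr, ← hus]; ring
      have e4 : s ^ 3 * r * L * u ≤ s ^ 3 * r * L * (y + 1) :=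
        mul_le_mul_of_nonneg_left hy2.le (by positivity)
      have e5 : 0 ≤ s ^ 2 * L * X := by positivity
      linarith
  have hcard : ((exceptions X fun _ => s ^ 3 * r * L).card : ℝ) ≤
      8 * y + (24 * (y : ℝ) ^ 2 + 4 * (X + 4 * y) * Real.log (4 * y) / K) := by
    have e1 := (card_le_card hincl).trans (card_union_le _ _)
    rw [Nat.card_Icc, Nat.add_sub_cancel] at e1
    have e2 : ((exceptions X fun _ => s ^ 3 * r * L).card : ℝ) ≤
        8 * y + (Bad X K y).card := by exact_mod_cast e1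
    linarith
  have hr4 : 4 ≤ r := by
    have : (16 : ℝ) ≤ X := by exact_mod_cast (show 16 ≤ X by omega)
    nlinarith
  have h4y : (4 * y : ℝ) ≤ X := by nlinarith
  have hlog : Real.log (4 * y) ≤ L := Real.log_le_log (by linarith) h4y
  have hlog0 : 0 ≤ Real.log (4 * y) := Real.log_nonneg (by linarith)
  have h5 : 4 * (X + 4 * y) * Real.log (4 * y) / K ≤ 64 * X / s ^ 2 := by
    rw [div_le_div_iff₀ hK0 (by positivity)]
    have e1 : 4 * ((X : ℝ) + 4 * y) * Real.log (4 * y) ≤ 8 * X * L := by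
      calc 4 * ((X : ℝ) + 4 * y) * Real.log (4 * y) ≤ 4 * ((X : ℝ) + 4 * y) * L :=
            mul_le_mul_of_nonneg_left hlog (by positivity)
        _ ≤ 8 * X * L := by nlinarith
    have e2 : 8 * (X : ℝ) * L * s ^ 2 ≤ 64 * X * K := by nlinarith
    nlinarith [mul_le_mul_of_nonneg_right e1 (show (0:ℝ) ≤ s ^ 2 by positivity)]
  have h6 : (y : ℝ) ^ 2 ≤ X / s ^ 2 := by
    rw [le_div_iff₀ (by positivity)]
    have e1 : (y : ℝ) * s ≤ r := by
      rw [← hus]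
      exact mul_le_mul_of_nonneg_right hy1 hs0.le
    have e2 : 0 ≤ (y : ℝ) * s := by positivity
    nlinarith
  have h7 : ((exceptions X fun _ => s ^ 3 * r * L).card : ℝ) ≤
      96 * X / s ^ 2 := by
    have e1 : 96 * (X : ℝ) / s ^ 2 = 32 * (X / s ^ 2) + 64 * X / s ^ 2 := by ring
    nlinarith
  rw [le_div_iff₀ (by positivity)] at h7
  have h8 : (0 : ℝ) ≤ X₀ := Nat.cast_nonneg _
  nlinarith

end Pool.Agent.K4H50.IV
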