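import Pool.Agent.K4H50.IV.A3

set_option autoImplicit false

namespace Pool.Agent.K4H50.IV

open Finset Filter

/-- upper half of the exceptions -/
theorem half {T : ℕ → ℝ} {X : ℕ} {t : ℝ} (Z : ℝ) (h : ∀ q : ℕ, Z < q → q ≤ X → t ≤ T q) :
    (((exceptions X T).filter fun q : ℕ => Z < (q : ℝ)).card : ℝ) ≤ (exceptions X fun _ => t).card := by
  exact_mod_cast card_le_card fun q hq => by
    obtain ⟨h1, h2⟩ := mem_filter.1 hq
    obtain ⟨h3, h4⟩ := mem_exceptions.1 h1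
    exact mem_exceptions.2 ⟨h3, fun h5 => h4 (h5.mono (h q h2 h3.2))⟩

/-- (B) -/
theorem partB (ε δ : ℝ) (hε : 0 < ε) (hδ : 0 < δ) (hδ1 : δ < 1) (hδε : 3 * δ < 2 * ε) :
    ∃ C : ℝ, ∀ X : ℕ, 1 ≤ X →
      ((exceptions X fun q => (q : ℝ) ^ (1 / 2 + ε)).card : ℝ) ≤ C * (X : ℝ) ^ (1 - δ) := by
  obtain ⟨C, hC, hA⟩ := partA
  have hev : ∀ᶠ x : ℝ in atTop, (2 : ℝ) ^ (1 / 2 + ε) * Real.log x ≤ x ^ (ε - 3 * δ / 2) := by
    have h1 := (isLittleO_log_rpow_atTop (show 0 < ε - 3 * δ / 2 by linarith)).bound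
      (show (0 : ℝ) < ((2 : ℝ) ^ (1 / 2 + ε))⁻¹ by positivity)
    filter_upwards [h1, eventually_ge_atTop (1 : ℝ)] with x hx hx1
    rw [Real.norm_of_nonneg (Real.log_nonneg hx1), Real.norm_of_nonneg (by positivity)] at hx
    rwa [← div_eq_inv_mul, le_div_iff₀ (by positivity), mul_comm] at hx
  obtain ⟨X₁, hX₁⟩ := eventually_atTop.1 (tendsto_natCast_atTop_atTop.eventually hev)
  set X₂ : ℕ := max 3 X₁ with hX₂
  have hstep : ∀ X : ℕ, X₂ ≤ X → (((exceptions X fun q => (q : ℝ) ^ (1 / 2 + ε)).filter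
      fun q : ℕ => (X : ℝ) / 2 < (q : ℝ)).card : ℝ) ≤ C * (X : ℝ) ^ (1 - δ) := by
    intro X hX
    have hX3 : 3 ≤ X := (le_max_left _ _).trans hX
    have hXr : (3 : ℝ) ≤ X := by exact_mod_cast hX3
    have h1 := hX₁ X ((le_max_right _ _).trans hX)
    have hX0 : (0 : ℝ) < X := by linarith
    set s : ℝ := (X : ℝ) ^ (δ / 2) with hs
    have hs1 : 1 ≤ s := Real.one_le_rpow (by linarith) (by positivity)
    have h2 := hA X hX3 s hs1
    have hs2 : s ^ 2 = (X : ℝ) ^ δ := by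
      rw [hs, ← Real.rpow_natCast, ← Real.rpow_mul hX0.le]; norm_num
    have hs3 : s ^ 3 = (X : ℝ) ^ (3 * δ / 2) := by
      rw [hs, ← Real.rpow_natCast, ← Real.rpow_mul hX0.le]; norm_num; ring_nf
    refine (half (t := s ^ 3 * √X * Real.log X) _ fun q hq1 hq2 => ?_).trans (h2.trans (le_of_eq ?_))
    · have e1 : ((X : ℝ) / 2) ^ (1 / 2 + ε) ≤ (q : ℝ) ^ (1 / 2 + ε) :=
        Real.rpow_le_rpow (by positivity) hq1.le (by positivity)
      refine le_trans ?_ e1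
      rw [Real.div_rpow hX0.le (by norm_num), le_div_iff₀ (by positivity), hs3, Real.sqrt_eq_rpow]
      calc (X : ℝ) ^ (3 * δ / 2) * (X : ℝ) ^ (1 / 2 : ℝ) * Real.log X * 2 ^ (1 / 2 + ε) =
          (X : ℝ) ^ (3 * δ / 2) * (X : ℝ) ^ (1 / 2 : ℝ) * (2 ^ (1 / 2 + ε) * Real.log X) := by ring
        _ ≤ (X : ℝ) ^ (3 * δ / 2) * (X : ℝ) ^ (1 / 2 : ℝ) * (X : ℝ) ^ (ε - 3 * δ / 2) :=
            mul_le_mul_of_nonneg_left h1 (by positivity)
        _ = (X : ℝ) ^ (1 / 2 + ε) := by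
            rw [← Real.rpow_add hX0, ← Real.rpow_add hX0]; congr 1; ring
    · rw [hs2, mul_div_assoc, Real.rpow_sub hX0, Real.rpow_one]
  -- dyadic sum
  set θ : ℝ := 1 - δ with hθ
  have hθ0 : 0 < θ := by rw [hθ]; linarith
  have h2θ : (1 : ℝ) < 2 ^ θ := Real.one_lt_rpow (by norm_num) hθ0
  set D : ℝ := (C + X₂) * 2 ^ θ / (2 ^ θ - 1) with hD
  have hD0 : 0 ≤ D := by
    have : (0 : ℝ) < 2 ^ θ - 1 := by linarith
    positivity
  have hDD : D / 2 ^ θ + (C + X₂) = D := by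
    rw [hD]
    have : (2 : ℝ) ^ θ - 1 ≠ 0 := by linarith
    field_simp
    ring
  refine ⟨D, fun X => ?_⟩
  induction X using Nat.strong_induction_on with
  | _ X ih =>
    intro hX1
    have hX1r : (1 : ℝ) ≤ X := by exact_mod_cast hX1
    have hXθ : (1 : ℝ) ≤ (X : ℝ) ^ θ := Real.one_le_rpow hX1r hθ0.le
    have hsplit : ((exceptions X fun q => (q : ℝ) ^ (1 / 2 + ε)).card : ℝ) ≤
        ((exceptions (X / 2) fun q => (q : ℝ) ^ (1 / 2 + ε)).card : ℝ) +
        (((exceptions X fun q => (q : ℝ) ^ (1 / 2 + ε)).filter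
          fun q : ℕ => (X : ℝ) / 2 < (q : ℝ)).card : ℝ) := by
      have : (exceptions X fun q => (q : ℝ) ^ (1 / 2 + ε)) ⊆
          (exceptions (X / 2) fun q => (q : ℝ) ^ (1 / 2 + ε)) ∪
          ((exceptions X fun q => (q : ℝ) ^ (1 / 2 + ε)).filter
            fun q : ℕ => (X : ℝ) / 2 < (q : ℝ)) := by
        intro q hq
        obtain ⟨h3, h4⟩ := mem_exceptions.1 hq
        rw [mem_union, mem_filter, mem_exceptions]
        by_cases hq2 : (X : ℝ) / 2 < q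
        · exact Or.inr ⟨hq, hq2⟩
        · left
          push Not at hq2
          refine ⟨⟨h3.1, ?_⟩, h4⟩
          rw [le_div_iff₀ (by norm_num)] at hq2
          rw [Nat.le_div_iff_mul_le (by norm_num)]
          exact_mod_cast hq2
      exact_mod_cast (card_le_card this).trans (card_union_le _ _)
    have hup : (((exceptions X fun q => (q : ℝ) ^ (1 / 2 + ε)).filter
          fun q : ℕ => (X : ℝ) / 2 < (q : ℝ)).card : ℝ) ≤ (C + X₂) * (X : ℝ) ^ θ := by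
      rcases Nat.lt_or_ge X X₂ with h | h
      · have e1 : (((exceptions X fun q => (q : ℝ) ^ (1 / 2 + ε)).filter
            fun q : ℕ => (X : ℝ) / 2 < (q : ℝ)).card : ℝ) ≤ X := by
          refine le_trans ?_ (card_exceptions_le X fun q => (q : ℝ) ^ (1 / 2 + ε))
          exact_mod_cast card_le_card (filter_subset _ _)
        have e2 : (X : ℝ) ≤ X₂ := by exact_mod_cast h.le
        have e3 : (0 : ℝ) ≤ X₂ := Nat.cast_nonneg _
        nlinarith
      · have e3 : (0 : ℝ) ≤ X₂ := Nat.cast_nonneg _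
        refine (hstep X h).trans ?_
        nlinarith
    have hlow : ((exceptions (X / 2) fun q => (q : ℝ) ^ (1 / 2 + ε)).card : ℝ) ≤
        D / 2 ^ θ * (X : ℝ) ^ θ := by
      rcases Nat.eq_zero_or_pos (X / 2) with h | h
      · have e1 := card_exceptions_le (X / 2) fun q => (q : ℝ) ^ (1 / 2 + ε)
        rw [h] at e1 ⊢
        push_cast at e1
        refine e1.trans (by positivity)
      · have e1 := ih (X / 2) (by omega) h
        refine e1.trans ?_
        have e2 : (((X / 2 : ℕ)) : ℝ) ≤ (X : ℝ) / 2 := Nat.cast_div_le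
        have e3 : (((X / 2 : ℕ)) : ℝ) ^ θ ≤ ((X : ℝ) / 2) ^ θ :=
          Real.rpow_le_rpow (Nat.cast_nonneg _) e2 hθ0.le
        rw [Real.div_rpow (by linarith) (by norm_num)] at e3
        calc D * (((X / 2 : ℕ)) : ℝ) ^ θ ≤ D * ((X : ℝ) ^ θ / 2 ^ θ) :=
              mul_le_mul_of_nonneg_left e3 hD0
          _ = _ := by ring
    calc _ ≤ D / 2 ^ θ * (X : ℝ) ^ θ + (C + X₂) * (X : ℝ) ^ θ := by linarith
      _ = (D / 2 ^ θ + (C + X₂)) * (X : ℝ) ^ θ := by ring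
      _ = D * (X : ℝ) ^ θ := by rw [hDD]

end Pool.Agent.K4H50.IV
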