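import Pool.Agent.K4H50.IV.A4

set_option autoImplicit false

namespace Pool.Agent.K4H50.IV

open Finset Filter

/-- the exceptional primes -/
noncomputable def primeExceptions (X : ℕ) (T : ℕ → ℝ) : Finset ℕ := (exceptions X T).filter Nat.Prime

theorem tendsto_log_nat : Tendsto (fun X : ℕ => Real.log X) atTop atTop :=
  Real.tendsto_log_atTop.comp tendsto_natCast_atTop_atTop

/-- (C) -/
theorem partC (A : ℝ) (hA : 5 / 2 < A) : ∃ C δ : ℝ, 0 < δ ∧ ∀ X : ℕ, 3 ≤ X →
    ((primeExceptions X fun p => √p * Real.log p ^ A).card : ℝ) ≤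
      C * X / Real.log X ^ (1 + δ) := by
  obtain ⟨C, hC, hPA⟩ := partA
  set D : ℝ := (A - 5 / 2) / 2 with hD
  have hD0 : 0 < D := by rw [hD]; linarith
  set δ : ℝ := 2 * D / 3 with hδ
  have hδ0 : 0 < δ := by positivity
  set c : ℝ := (2 : ℝ) ^ (-A) with hc
  have hc0 : 0 < c := by positivity
  have ev1 : ∀ᶠ X : ℕ in atTop, 2 * D * Real.log (Real.log X) ≤ Real.log X / 2 := by
    have h1 := Real.isLittleO_log_id_atTop.bound (show (0 : ℝ) < 1 / (4 * D + 4) by positivity)
    have h2 : ∀ᶠ x : ℝ in atTop, 2 * D * Real.log x ≤ x / 2 := by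
      filter_upwards [h1, eventually_ge_atTop (1 : ℝ)] with x hx hx1
      simp only [id] at hx
      rw [Real.norm_of_nonneg (Real.log_nonneg hx1), Real.norm_of_nonneg (by linarith)] at hx
      have h3 : 0 ≤ Real.log x := Real.log_nonneg hx1
      rw [div_mul_eq_mul_div, one_mul, le_div_iff₀ (by positivity)] at hx
      nlinarith
    exact tendsto_log_nat.eventually h2
  have ev2 : ∀ᶠ X : ℕ in atTop, 1 ≤ c * Real.log X ^ (3 / 2 + D) := by
    have h1 : Tendsto (fun x : ℝ => c * x ^ (3 / 2 + D)) atTop atTop :=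
      (tendsto_rpow_atTop (by positivity)).const_mul_atTop hc0
    exact tendsto_log_nat.eventually (h1.eventually_ge_atTop 1)
  have ev3 : ∀ᶠ x : ℝ in atTop, (Nat.primeCounting ⌊x⌋₊ : ℝ) ≤ 2 * x / Real.log x := by
    have h1 := Chebyshev.eventually_primeCounting_le (show (0 : ℝ) < 1 / 2 by norm_num)
    filter_upwards [h1, eventually_gt_atTop (1 : ℝ)] with x hx hx1
    refine hx.trans ?_
    have h4 : Real.log 4 = 2 * Real.log 2 := by
      rw [show (4 : ℝ) = 2 ^ 2 by norm_num, Real.log_pow]; norm_num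
    have h8 := Real.log_two_lt_d9
    have h9 : 0 < Real.log x := Real.log_pos hx1
    refine div_le_div_of_nonneg_right ?_ h9.le
    nlinarith
  obtain ⟨x₃, hx₃⟩ := eventually_atTop.1 ev3
  have ev4 : ∀ᶠ X : ℕ in atTop, max x₃ 2 ≤ √(X : ℝ) := by
    have h1 : Tendsto (fun X : ℕ => √(X : ℝ)) atTop atTop :=
      Real.tendsto_sqrt_atTop.comp tendsto_natCast_atTop_atTop
    exact h1.eventually_ge_atTop _
  obtain ⟨X₁, hX₁⟩ := eventually_atTop.1 (ev1.and (ev2.and (ev4.and (eventually_ge_atTop 3))))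
  have hmain : ∀ X : ℕ, X₁ ≤ X →
      ((primeExceptions X fun p => √p * Real.log p ^ A).card : ℝ) ≤
        (4 + C * c ^ (-(2 / 3 : ℝ))) * X / Real.log X ^ (1 + δ) := by
    intro X hX
    obtain ⟨h1, h2, h3, hX3⟩ := hX₁ X hX
    have hXr : (3 : ℝ) ≤ X := by exact_mod_cast hX3
    have hX0 : (0 : ℝ) < X := by linarith
    set L : ℝ := Real.log X with hL
    have hL1 : 1 ≤ L := log_ge_one hX3
    have hL0 : 0 < L := by linarith
    set Z : ℝ := X * L ^ (-(2 * D)) with hZ
    have hZ0 : 0 < Z := by positivity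
    have hlogZ : L / 2 ≤ Real.log Z := by
      rw [hZ, Real.log_mul hX0.ne' (by positivity), Real.log_rpow hL0]
      linarith
    have hZs : √(X : ℝ) ≤ Z := by
      rw [← Real.log_le_log_iff (Real.sqrt_pos.2 hX0) hZ0, Real.log_sqrt hX0.le]
      exact hlogZ
    have hZ3 : x₃ ≤ Z := (le_max_left _ _).trans (h3.trans hZs)
    -- primes up to `Z`
    have hlow : ((((exceptions X fun p => √p * Real.log p ^ A).filter Nat.Prime).filter
        fun q : ℕ => ¬ Z < (q : ℝ)).card : ℝ) ≤ 4 * X / L ^ (1 + δ) := by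
      have e1 : ((((exceptions X fun p => √p * Real.log p ^ A).filter Nat.Prime).filter
          fun q : ℕ => ¬ Z < (q : ℝ)).card : ℝ) ≤ (Nat.primeCounting ⌊Z⌋₊ : ℝ) := by
        rw [Nat.primeCounting, Nat.primeCounting', Nat.count_eq_card_filter_range]
        exact_mod_cast card_le_card fun q hq => by
          obtain ⟨e2, e3⟩ := mem_filter.1 hq
          obtain ⟨-, e4⟩ := mem_filter.1 e2
          push Not at e3
          rw [mem_filter, mem_range]
          exact ⟨Nat.lt_succ_of_le (Nat.le_floor e3), e4⟩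
      refine e1.trans ((hx₃ Z hZ3).trans ?_)
      have e5 : 2 * Z / Real.log Z ≤ 2 * Z / (L / 2) :=
        div_le_div_of_nonneg_left (show (0 : ℝ) ≤ 2 * Z by positivity)
          (show (0 : ℝ) < L / 2 by positivity) hlogZ
      refine e5.trans ?_
      have e6 : 2 * Z / (L / 2) = 4 * X * (L ^ (-(2 * D)) / L) := by rw [hZ]; field_simp; ring
      have e7 : L ^ (-(2 * D)) / L ≤ (L ^ (1 + δ))⁻¹ := by
        rw [← Real.rpow_neg hL0.le, ← Real.rpow_sub_one hL0.ne']
        exact Real.rpow_le_rpow_of_exponent_le hL1 (by rw [hδ]; linarith)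
      rw [e6, div_eq_mul_inv (4 * (X : ℝ))]
      exact mul_le_mul_of_nonneg_left e7 (by positivity)
    have hup : ((((exceptions X fun p => √p * Real.log p ^ A).filter Nat.Prime).filter
        fun q : ℕ => Z < (q : ℝ)).card : ℝ) ≤ C * c ^ (-(2 / 3 : ℝ)) * X / L ^ (1 + δ) := by
      have e1 : ((((exceptions X fun p => √p * Real.log p ^ A).filter Nat.Prime).filter
          fun q : ℕ => Z < (q : ℝ)).card : ℝ) ≤ (((exceptions X fun p => √p * Real.log p ^ A).filter
          fun q : ℕ => Z < (q : ℝ)).card : ℝ) := by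
        exact_mod_cast card_le_card (filter_subset_filter _ (filter_subset _ _))
      set s : ℝ := (c * L ^ (3 / 2 + D)) ^ (1 / 3 : ℝ) with hs
      have hs1 : 1 ≤ s := Real.one_le_rpow h2 (by norm_num)
      have hs3 : s ^ 3 = c * L ^ (3 / 2 + D) := by
        rw [hs, ← Real.rpow_natCast, ← Real.rpow_mul (by positivity)]; norm_num
      have hs2 : s ^ 2 = c ^ (2 / 3 : ℝ) * L ^ (1 + δ) := by
        rw [hs, ← Real.rpow_natCast, ← Real.rpow_mul (by positivity), Real.mul_rpow (by positivity)
          (by positivity), ← Real.rpow_mul hL0.le]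
        congr 2
        · norm_num
        · rw [hδ]; push_cast; ring
      have e2 := hPA X hX3 s hs1
      refine e1.trans ((half (t := s ^ 3 * √X * Real.log X) _ fun q hq1 hq2 => ?_).trans
        (e2.trans (le_of_eq ?_)))
      · have hq0 : (0 : ℝ) < q := hZ0.trans hq1
        have f1 : √(X : ℝ) * L ^ (-D) ≤ √(q : ℝ) := by
          have : √(X : ℝ) * L ^ (-D) = √Z := by
            rw [hZ, Real.sqrt_mul hX0.le]
            congr 1
            rw [Real.sqrt_eq_rpow, ← Real.rpow_mul hL0.le]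
            congr 1; ring
          rw [this]
          exact Real.sqrt_le_sqrt hq1.le
        have f2 : L / 2 ≤ Real.log q := hlogZ.trans (Real.log_le_log hZ0 hq1.le)
        have f3 : (L / 2) ^ A ≤ Real.log q ^ A :=
          Real.rpow_le_rpow (by positivity) f2 (by linarith)
        have f4 : (L / 2) ^ A = c * L ^ A := by
          rw [Real.div_rpow hL0.le (by norm_num), hc, Real.rpow_neg (by norm_num)]
          ring
        calc s ^ 3 * √(X : ℝ) * Real.log X = (√(X : ℝ) * L ^ (-D)) * (c * L ^ A) := by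
              rw [hs3, ← hL]
              have g1 : L ^ (3 / 2 + D) * L = L ^ (-D) * L ^ A := by
                rw [← Real.rpow_add hL0, ← Real.rpow_add_one hL0.ne']
                congr 1; rw [hD]; ring
              linear_combination (c * √(X : ℝ)) * g1
          _ = (√(X : ℝ) * L ^ (-D)) * (L / 2) ^ A := by rw [f4]
          _ ≤ √(q : ℝ) * Real.log q ^ A := mul_le_mul f1 f3 (by positivity) (Real.sqrt_nonneg _)
      · rw [hs2, Real.rpow_neg hc0.le]
        field_simp
    have hsum : ((primeExceptions X fun p => √p * Real.log p ^ A).card : ℝ) =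
        ((((exceptions X fun p => √p * Real.log p ^ A).filter Nat.Prime).filter
          fun q : ℕ => Z < (q : ℝ)).card : ℝ) +
        ((((exceptions X fun p => √p * Real.log p ^ A).filter Nat.Prime).filter
          fun q : ℕ => ¬ Z < (q : ℝ)).card : ℝ) := by
      rw [primeExceptions]
      exact_mod_cast (card_filter_add_card_filter_not _).symm
    rw [hsum, add_mul, add_div]
    linarith
  refine ⟨(4 + C * c ^ (-(2 / 3 : ℝ))) + Real.log (X₁ + 3) ^ (1 + δ), δ, hδ0, fun X hX => ?_⟩
  have hXr : (3 : ℝ) ≤ X := by exact_mod_cast hX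
  have hL1 : 1 ≤ Real.log X := log_ge_one hX
  have hLδ : 0 < Real.log X ^ (1 + δ) := by positivity
  have hlog0 : 0 ≤ Real.log ((X₁ : ℝ) + 3) := Real.log_nonneg (by
    have : (0 : ℝ) ≤ X₁ := Nat.cast_nonneg _
    linarith)
  rcases Nat.lt_or_ge X X₁ with h | h
  · have e1 : ((primeExceptions X fun p => √p * Real.log p ^ A).card : ℝ) ≤ X := by
      refine le_trans ?_ (card_exceptions_le X fun p => √p * Real.log p ^ A)
      exact_mod_cast card_le_card (filter_subset _ _)
    have e2 : Real.log X ≤ Real.log (X₁ + 3) := by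
      refine Real.log_le_log (by linarith) ?_
      have : (X : ℝ) ≤ X₁ := by exact_mod_cast h.le
      linarith
    have e3 : Real.log X ^ (1 + δ) ≤ Real.log (X₁ + 3) ^ (1 + δ) :=
      Real.rpow_le_rpow (by linarith) e2 (by linarith)
    rw [le_div_iff₀ hLδ]
    have e4 : 0 ≤ C * c ^ (-(2 / 3 : ℝ)) := by positivity
    nlinarith
  · refine (hmain X h).trans ?_
    refine div_le_div_of_nonneg_right ?_ hLδ.le
    have e4 : 0 ≤ Real.log ((X₁ : ℝ) + 3) ^ (1 + δ) := by positivity
    nlinarith

end Pool.Agent.K4H50.IV
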